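import Pool.Agent.K1H48.MT.Dil

set_option autoImplicit false

/-! One dyadic block of primes in the criterion of Kátai, on average over the windows. -/

namespace Pool.Agent.K1H48.MT
open Finset Pool.Agent.K1H48.RB

lemma amgm {x A : ℝ} (hA : 0 < A) (hx : 0 ≤ x) : x ≤ A + x ^ 2 / A := by
  rcases le_total x A with h | h
  · have : 0 ≤ x ^ 2 / A := by positivity
    linarith
  · have : x ≤ x ^ 2 / A := by
      rw [le_div_iff₀ hA]
      nlinarith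
    linarith

lemma corr_bound (N T p q : ℕ) (hN : 1 ≤ N) (hT : 1 ≤ T) (τ : ℝ) (hτ : 0 < τ) (β : ℕ → ℂ) (hβ : ∀ t, ‖β t‖ ≤ 1) :
    ∑ n ∈ Icc 1 N, ‖∑ t ∈ Icc 1 T, β t * ((lam (n + p * t) * lam (n + q * t) : ℝ) : ℂ)‖ ≤
      2 * τ * N * T + DD N T p q / (N * T * τ ^ 3) := by
  have hN0 : (0 : ℝ) < N := by exact_mod_cast hN
  have hT0 : (0 : ℝ) < T := by exact_mod_cast hT
  set z : ℕ → ℝ := fun n => ‖∑ t ∈ Icc 1 T, β t * ((lam (n + p * t) * lam (n + q * t) : ℝ) : ℂ)‖ with hz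
  have h1 : ∑ n ∈ Icc 1 N, z n ^ 2 ≤ ∑ t ∈ Icc 1 T, ∑ t' ∈ Icc 1 T, |Cr N (p * t) (q * t) (p * t') (q * t')| := by
    have e1 : ((∑ n ∈ Icc 1 N, z n ^ 2 : ℝ) : ℂ) = ∑ t ∈ Icc 1 T, ∑ t' ∈ Icc 1 T, β t * (starRingEnd ℂ) (β t') *
        ((Cr N (p * t) (q * t) (p * t') (q * t') : ℝ) : ℂ) := by
      rw [Complex.ofReal_sum]
      have e2 : ∀ n ∈ Icc 1 N, ((z n ^ 2 : ℝ) : ℂ) = ∑ t ∈ Icc 1 T, ∑ t' ∈ Icc 1 T, β t * (starRingEnd ℂ) (β t') *
          ((lam (n + p * t) * lam (n + q * t) * lam (n + p * t') * lam (n + q * t') : ℝ) : ℂ) := by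
        intro n _
        rw [hz]
        simp only
        rw [sq_norm_sum]
        apply sum_congr rfl; intro t _
        apply sum_congr rfl; intro t' _
        rw [map_mul, Complex.conj_ofReal]
        push_cast
        ring
      rw [sum_congr rfl e2, sum_comm]
      apply sum_congr rfl; intro t _
      rw [sum_comm]
      apply sum_congr rfl; intro t' _
      rw [← mul_sum]
      congr 1
      unfold Cr
      rw [Complex.ofReal_sum]
    have e3 : ∑ n ∈ Icc 1 N, z n ^ 2 = ‖((∑ n ∈ Icc 1 N, z n ^ 2 : ℝ) : ℂ)‖ := by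
      rw [Complex.norm_real, Real.norm_of_nonneg (sum_nonneg fun _ _ => sq_nonneg _)]
    rw [e3, e1]
    refine (norm_sum_le _ _).trans (sum_le_sum fun t _ => (norm_sum_le _ _).trans (sum_le_sum fun t' _ => ?_))
    rw [norm_mul, norm_mul, RCLike.norm_conj, Complex.norm_real, Real.norm_eq_abs]
    have e4 : ‖β t‖ * ‖β t'‖ ≤ 1 * 1 := mul_le_mul (hβ t) (hβ t') (norm_nonneg _) zero_le_one
    calc ‖β t‖ * ‖β t'‖ * |Cr N (p * t) (q * t) (p * t') (q * t')| ≤ (1 * 1) * |Cr N (p * t) (q * t) (p * t') (q * t')| :=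
          mul_le_mul_of_nonneg_right e4 (abs_nonneg _)
      _ = _ := by ring
  have h2 : ∑ t ∈ Icc 1 T, ∑ t' ∈ Icc 1 T, |Cr N (p * t) (q * t) (p * t') (q * t')| ≤
      (T : ℝ) ^ 2 * (τ ^ 2 * N) + DD N T p q / (τ ^ 2 * N) := by
    have e1 : ∀ t ∈ Icc 1 T, ∀ t' ∈ Icc 1 T, |Cr N (p * t) (q * t) (p * t') (q * t')| ≤
        τ ^ 2 * N + Cr N (p * t) (q * t) (p * t') (q * t') ^ 2 / (τ ^ 2 * N) := by
      intro t _ t' _
      have := amgm (x := |Cr N (p * t) (q * t) (p * t') (q * t')|) (A := τ ^ 2 * N) (by positivity) (abs_nonneg _)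
      rw [sq_abs] at this
      exact this
    refine (sum_le_sum fun t ht => sum_le_sum fun t' ht' => e1 t ht t' ht').trans (le_of_eq ?_)
    obtain ⟨E, hE⟩ : ∃ E : ℝ, E = τ ^ 2 * N := ⟨_, rfl⟩
    rw [← hE]
    unfold DD
    simp only [sum_add_distrib, sum_const, Nat.card_Icc, Nat.add_sub_cancel, nsmul_eq_mul, sum_div]
    ring
  have h3 : ∀ n ∈ Icc 1 N, z n ≤ τ * T + z n ^ 2 / (τ * T) := by
    intro n _
    exact amgm (by positivity) (norm_nonneg _)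
  have h4 : ∑ n ∈ Icc 1 N, z n ≤ N * (τ * T) + (∑ n ∈ Icc 1 N, z n ^ 2) / (τ * T) := by
    refine (sum_le_sum h3).trans (le_of_eq ?_)
    rw [sum_add_distrib, sum_const, Nat.card_Icc, Nat.add_sub_cancel, nsmul_eq_mul, sum_div]
  have h5 : (∑ n ∈ Icc 1 N, z n ^ 2) / (τ * T) ≤ ((T : ℝ) ^ 2 * (τ ^ 2 * N) + DD N T p q / (τ ^ 2 * N)) / (τ * T) :=
    div_le_div_of_nonneg_right (h1.trans h2) (by positivity)
  have h6 : ((T : ℝ) ^ 2 * (τ ^ 2 * N) + DD N T p q / (τ ^ 2 * N)) / (τ * T) = τ * N * T + DD N T p q / (N * T * τ ^ 3) := by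
    field_simp
  rw [h6] at h5
  linarith

/-- **one block of the criterion** -/
lemma block (N T M P k : ℕ) (hN : 1 ≤ N) (hT : 1 ≤ T) (hk : 1 ≤ k) (S : Finset ℕ) (hS : S.card = k) (hST : ∀ p ∈ S, M / p ≤ T)
    (η τ σ : ℝ) (hη : 0 < η) (hτ : 0 < τ) (hσ : 0 < σ)
    (hD : ∑ p ∈ S, ∑ q ∈ S.erase p, DD N T p q ≤ (72 * P + (S.card : ℝ) ^ 2 * η) * (T : ℝ) ^ 2 * (N : ℝ) ^ 2)
    (hS0 : ∀ p ∈ S, 0 < p)
    (u G : ℕ → ℕ → ℂ) (b : ℕ → ℂ) (hu : ∀ n p, ‖u n p‖ ≤ 1) (hG : ∀ n m, ‖G n m‖ ≤ 1) (hb : ∀ m, ‖b m‖ ≤ 1) :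
    ∑ n ∈ Icc 1 N, ‖∑ p ∈ S, ∑ t ∈ Ioc 0 (M / p), u n p * G n t * (b (p * t) * ((lam (n + p * t) : ℝ) : ℂ))‖ ≤
      N * T * k * (σ + (1 / σ) * (1 / k + 2 * τ + (72 * P / (k : ℝ) ^ 2 + η) / τ ^ 3)) := by
  have hN0 : (0 : ℝ) < N := by exact_mod_cast hN
  have hT0 : (0 : ℝ) < T := by exact_mod_cast hT
  have hk0 : (0 : ℝ) < k := by exact_mod_cast hk
  set c : ℕ → ℕ → ℕ → ℂ := fun n p t => if p * t ≤ M then u n p * b (p * t) else 0 with hc
  set v : ℕ → ℕ → ℂ := fun n t => ∑ p ∈ S, c n p t * ((lam (n + p * t) : ℝ) : ℂ) with hv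
  -- the sum over `t` outside
  have h1 : ∀ n ∈ Icc 1 N, ‖∑ p ∈ S, ∑ t ∈ Ioc 0 (M / p), u n p * G n t * (b (p * t) * ((lam (n + p * t) : ℝ) : ℂ))‖ ≤
      ∑ t ∈ Icc 1 T, ‖v n t‖ := by
    intro n _
    have e1 : ∑ p ∈ S, ∑ t ∈ Ioc 0 (M / p), u n p * G n t * (b (p * t) * ((lam (n + p * t) : ℝ) : ℂ)) =
        ∑ t ∈ Icc 1 T, G n t * v n t := by
      have e2 : ∀ p ∈ S, ∑ t ∈ Ioc 0 (M / p), u n p * G n t * (b (p * t) * ((lam (n + p * t) : ℝ) : ℂ)) =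
          ∑ t ∈ Icc 1 T, G n t * (c n p t * ((lam (n + p * t) : ℝ) : ℂ)) := by
        intro p hp
        have hsub : Ioc 0 (M / p) ⊆ Icc 1 T := by
          intro t ht
          rw [mem_Ioc] at ht
          rw [mem_Icc]
          have := hST p hp
          omega
        rw [← sum_subset hsub]
        · apply sum_congr rfl
          intro t ht
          rw [mem_Ioc] at ht
          have h3 : p * t ≤ M := by
            rw [mul_comm]
            exact (Nat.le_div_iff_mul_le (hS0 p hp)).1 ht.2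
          rw [hc]
          simp only [if_pos h3]
          ring
        · intro t ht ht'
          rw [mem_Icc] at ht
          rw [mem_Ioc] at ht'
          have h3 : ¬ p * t ≤ M := by
            intro h4
            apply ht'
            refine ⟨by omega, (Nat.le_div_iff_mul_le (hS0 p hp)).2 ?_⟩
            rw [mul_comm]
            exact h4
          rw [hc]
          simp only [if_neg h3, zero_mul, mul_zero]
      rw [sum_congr rfl e2, sum_comm]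
      apply sum_congr rfl; intro t _
      rw [hv]
      simp only
      rw [mul_sum]
    rw [e1]
    refine (norm_sum_le _ _).trans (sum_le_sum fun t _ => ?_)
    rw [norm_mul]
    calc ‖G n t‖ * ‖v n t‖ ≤ 1 * ‖v n t‖ := mul_le_mul_of_nonneg_right (hG n t) (norm_nonneg _)
      _ = _ := one_mul _
  -- the second moment
  set β : ℕ → ℕ → ℕ → ℂ := fun p q t => if p * t ≤ M ∧ q * t ≤ M then b (p * t) * (starRingEnd ℂ) (b (q * t)) else 0 with hβ
  have hβ1 : ∀ p q t, ‖β p q t‖ ≤ 1 := by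
    intro p q t
    rw [hβ]
    simp only
    split_ifs
    · rw [norm_mul, RCLike.norm_conj]
      calc ‖b (p * t)‖ * ‖b (q * t)‖ ≤ 1 * 1 := mul_le_mul (hb _) (hb _) (norm_nonneg _) zero_le_one
        _ = 1 := one_mul 1
    · simp
  have h2 : ∀ n ∈ Icc 1 N, ∑ t ∈ Icc 1 T, ‖v n t‖ ^ 2 ≤
      ∑ p ∈ S, ∑ q ∈ S, ‖∑ t ∈ Icc 1 T, β p q t * ((lam (n + p * t) * lam (n + q * t) : ℝ) : ℂ)‖ := by
    intro n _
    have e1 : ((∑ t ∈ Icc 1 T, ‖v n t‖ ^ 2 : ℝ) : ℂ) = ∑ p ∈ S, ∑ q ∈ S, (u n p * (starRingEnd ℂ) (u n q)) *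
        ∑ t ∈ Icc 1 T, β p q t * ((lam (n + p * t) * lam (n + q * t) : ℝ) : ℂ) := by
      rw [Complex.ofReal_sum]
      have e2 : ∀ t ∈ Icc 1 T, ((‖v n t‖ ^ 2 : ℝ) : ℂ) = ∑ p ∈ S, ∑ q ∈ S, (u n p * (starRingEnd ℂ) (u n q)) *
          (β p q t * ((lam (n + p * t) * lam (n + q * t) : ℝ) : ℂ)) := by
        intro t _
        rw [hv]
        simp only
        rw [sq_norm_sum]
        apply sum_congr rfl; intro p _
        apply sum_congr rfl; intro q _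
        rw [map_mul, Complex.conj_ofReal, hc, hβ]
        simp only
        by_cases h3 : p * t ≤ M
        · by_cases h4 : q * t ≤ M
          · rw [if_pos h3, if_pos h4, if_pos ⟨h3, h4⟩, map_mul]
            push_cast
            ring
          · have h5 : ¬ (p * t ≤ M ∧ q * t ≤ M) := fun h => h4 h.2
            rw [if_neg h4, if_neg h5]
            simp
        · have h5 : ¬ (p * t ≤ M ∧ q * t ≤ M) := fun h => h3 h.1
          rw [if_neg h3, if_neg h5]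
          simp
      rw [sum_congr rfl e2, sum_comm]
      apply sum_congr rfl; intro p _
      rw [sum_comm]
      apply sum_congr rfl; intro q _
      rw [mul_sum]
    have e3 : ∑ t ∈ Icc 1 T, ‖v n t‖ ^ 2 = ‖((∑ t ∈ Icc 1 T, ‖v n t‖ ^ 2 : ℝ) : ℂ)‖ := by
      rw [Complex.norm_real, Real.norm_of_nonneg (sum_nonneg fun _ _ => sq_nonneg _)]
    rw [e3, e1]
    refine (norm_sum_le _ _).trans (sum_le_sum fun p _ => (norm_sum_le _ _).trans (sum_le_sum fun q _ => ?_))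
    rw [norm_mul, norm_mul, RCLike.norm_conj]
    have e4 : ‖u n p‖ * ‖u n q‖ ≤ 1 * 1 := mul_le_mul (hu n p) (hu n q) (norm_nonneg _) zero_le_one
    calc ‖u n p‖ * ‖u n q‖ * ‖∑ t ∈ Icc 1 T, β p q t * ((lam (n + p * t) * lam (n + q * t) : ℝ) : ℂ)‖ ≤
          (1 * 1) * ‖∑ t ∈ Icc 1 T, β p q t * ((lam (n + p * t) * lam (n + q * t) : ℝ) : ℂ)‖ :=
          mul_le_mul_of_nonneg_right e4 (norm_nonneg _)
      _ = _ := by ring
  have h3 : ∑ n ∈ Icc 1 N, ∑ t ∈ Icc 1 T, ‖v n t‖ ^ 2 ≤ N * T * (k + 2 * τ * (k : ℝ) ^ 2 + (72 * P + (k : ℝ) ^ 2 * η) / τ ^ 3) := by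
    refine (sum_le_sum h2).trans ?_
    have e0 : ∑ n ∈ Icc 1 N, ∑ p ∈ S, ∑ q ∈ S, ‖∑ t ∈ Icc 1 T, β p q t * ((lam (n + p * t) * lam (n + q * t) : ℝ) : ℂ)‖ =
        ∑ p ∈ S, ∑ q ∈ S, ∑ n ∈ Icc 1 N, ‖∑ t ∈ Icc 1 T, β p q t * ((lam (n + p * t) * lam (n + q * t) : ℝ) : ℂ)‖ := by
      rw [sum_comm]
      apply sum_congr rfl; intro p _
      rw [sum_comm]
    rw [e0]
    have e1 : ∀ p ∈ S, ∑ q ∈ S, ∑ n ∈ Icc 1 N, ‖∑ t ∈ Icc 1 T, β p q t * ((lam (n + p * t) * lam (n + q * t) : ℝ) : ℂ)‖ ≤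
        N * T + ∑ q ∈ S.erase p, (2 * τ * N * T + DD N T p q / (N * T * τ ^ 3)) := by
      intro p hp
      rw [← add_sum_erase S _ hp]
      apply add_le_add
      · have e2 : ∀ n ∈ Icc 1 N, ‖∑ t ∈ Icc 1 T, β p p t * ((lam (n + p * t) * lam (n + p * t) : ℝ) : ℂ)‖ ≤ T := by
          intro n _
          refine (norm_sum_le _ _).trans ?_
          have e3 : ∀ t ∈ Icc 1 T, ‖β p p t * ((lam (n + p * t) * lam (n + p * t) : ℝ) : ℂ)‖ ≤ 1 := by
            intro t _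
            rw [lam_sq, norm_mul]
            simpa using hβ1 p p t
          refine (sum_le_sum e3).trans ?_
          simp
        refine (sum_le_sum e2).trans ?_
        rw [sum_const, Nat.card_Icc, Nat.add_sub_cancel, nsmul_eq_mul]
      · apply sum_le_sum
        intro q _
        exact corr_bound N T p q hN hT τ hτ (β p q) (hβ1 p q)
    refine (sum_le_sum e1).trans ?_
    have e4 : ∀ p ∈ S, ∑ q ∈ S.erase p, (2 * τ * N * T + DD N T p q / (N * T * τ ^ 3)) ≤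
        k * (2 * τ * N * T) + (∑ q ∈ S.erase p, DD N T p q) / (N * T * τ ^ 3) := by
      intro p _
      rw [sum_add_distrib, sum_const, nsmul_eq_mul, sum_div]
      have : ((S.erase p).card : ℝ) * (2 * τ * N * T) ≤ k * (2 * τ * N * T) := by
        apply mul_le_mul_of_nonneg_right _ (by positivity)
        rw [← hS]
        exact_mod_cast card_le_card (erase_subset _ _)
      linarith
    have e5 : ∑ p ∈ S, ((N : ℝ) * T + ∑ q ∈ S.erase p, (2 * τ * N * T + DD N T p q / (N * T * τ ^ 3))) ≤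
        k * (N * T) + (k * (k * (2 * τ * N * T)) + (∑ p ∈ S, ∑ q ∈ S.erase p, DD N T p q) / (N * T * τ ^ 3)) := by
      rw [sum_add_distrib, sum_const, nsmul_eq_mul, hS]
      have := sum_le_sum e4
      rw [sum_add_distrib, sum_const, nsmul_eq_mul, hS, ← sum_div] at this
      linarith
    refine e5.trans ?_
    have e6 : (∑ p ∈ S, ∑ q ∈ S.erase p, DD N T p q) / (N * T * τ ^ 3) ≤ ((72 * P + (k : ℝ) ^ 2 * η) * (T : ℝ) ^ 2 * (N : ℝ) ^ 2) / (N * T * τ ^ 3) := by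
      rw [hS] at hD
      exact div_le_div_of_nonneg_right hD (by positivity)
    have e7 : ((72 * P + (k : ℝ) ^ 2 * η) * (T : ℝ) ^ 2 * (N : ℝ) ^ 2) / (N * T * τ ^ 3) = N * T * ((72 * P + (k : ℝ) ^ 2 * η) / τ ^ 3) := by
      field_simp
    rw [e7] at e6
    nlinarith
  -- conclusion
  have h4 : ∀ n ∈ Icc 1 N, ∑ t ∈ Icc 1 T, ‖v n t‖ ≤ T * (k * σ) + (∑ t ∈ Icc 1 T, ‖v n t‖ ^ 2) / (k * σ) := by
    intro n _
    have e1 : ∀ t ∈ Icc 1 T, ‖v n t‖ ≤ k * σ + ‖v n t‖ ^ 2 / (k * σ) := fun t _ => amgm (by positivity) (norm_nonneg _)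
    refine (sum_le_sum e1).trans (le_of_eq ?_)
    rw [sum_add_distrib, sum_const, Nat.card_Icc, Nat.add_sub_cancel, nsmul_eq_mul, sum_div]
  refine (sum_le_sum h1).trans ((sum_le_sum h4).trans ?_)
  rw [sum_add_distrib, sum_const, Nat.card_Icc, Nat.add_sub_cancel, nsmul_eq_mul, ← sum_div]
  have h5 : (∑ n ∈ Icc 1 N, ∑ t ∈ Icc 1 T, ‖v n t‖ ^ 2) / (k * σ) ≤
      (N * T * (k + 2 * τ * (k : ℝ) ^ 2 + (72 * P + (k : ℝ) ^ 2 * η) / τ ^ 3)) / (k * σ) :=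
    div_le_div_of_nonneg_right h3 (by positivity)
  have h6 : (N * T * (k + 2 * τ * (k : ℝ) ^ 2 + (72 * P + (k : ℝ) ^ 2 * η) / τ ^ 3)) / (k * σ) =
      N * T * k * ((1 / σ) * (1 / k + 2 * τ + (72 * P / (k : ℝ) ^ 2 + η) / τ ^ 3)) := by
    field_simp
  rw [h6] at h5
  have h7 : (N : ℝ) * (T * (k * σ)) = N * T * k * σ := by ring
  rw [h7, mul_add]
  linarith

end Pool.Agent.K1H48.MT
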