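import Pool.Agent.K1H48.RB.Ratio
import Pool.Agent.K1H48.RB.Inp

set_option autoImplicit false

/-! Four-point correlations along two dilates, on average over the pairs of dilates. -/

namespace Pool.Agent.K1H48.MT
open Finset Pool.Agent.K1H48.RB

lemma yy_abs (n n' m : ℕ) : |yy n n' m| = 1 := by
  unfold yy
  rw [abs_mul, lam_abs, lam_abs, one_mul]

lemma shift_diff (g : ℕ → ℝ) (hg : ∀ n, |g n| ≤ 1) (N i : ℕ) :
    |∑ n ∈ Icc 1 N, g (n + i) - ∑ n ∈ Icc 1 N, g n| ≤ 2 * i := by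
  induction i with
  | zero => simp
  | succ i ih =>
    have h1 : ∑ n ∈ Icc 1 N, g (n + (i + 1)) - ∑ n ∈ Icc 1 N, g (n + i) = g (N + (i + 1)) - g (i + 1) := by
      have e1 : ∀ k : ℕ, ∑ n ∈ Icc 1 N, g (n + k) = ∑ n ∈ range N, g (n + 1 + k) := by
        intro k
        rw [range_eq_Ico, sum_Ico_add' (fun n => g (n + k)) 0 N 1]
        apply sum_congr _ fun _ _ => rfl
        ext x
        simp only [mem_Icc, mem_Ico]
        omega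
      rw [e1, e1, ← sum_sub_distrib]
      have e2 : ∀ n ∈ range N, g (n + 1 + (i + 1)) - g (n + 1 + i) =
          (fun n => g (n + (i + 1))) (n + 1) - (fun n => g (n + (i + 1))) n := by
        intro n _
        simp only
        congr 2
        omega
      rw [sum_congr rfl e2]
      have e3 := sum_range_sub (fun n => g (n + (i + 1))) N
      rw [e3]
      simp
    have h2 : ∑ n ∈ Icc 1 N, g (n + (i + 1)) - ∑ n ∈ Icc 1 N, g n =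
        (∑ n ∈ Icc 1 N, g (n + (i + 1)) - ∑ n ∈ Icc 1 N, g (n + i)) + (∑ n ∈ Icc 1 N, g (n + i) - ∑ n ∈ Icc 1 N, g n) := by ring
    rw [h2, h1]
    refine (abs_add_le _ _).trans ?_
    have h3 : |g (N + (i + 1)) - g (i + 1)| ≤ 2 := by
      refine (abs_sub _ _).trans ?_
      linarith [hg (N + (i + 1)), hg (i + 1)]
    push_cast
    linarith

lemma block_sq (g : ℕ → ℝ) (hg : ∀ n, |g n| ≤ 1) (T J : ℕ) (hJ : 1 ≤ J) :
    (∑ t ∈ Icc 1 T, g t) ^ 2 ≤ 2 * (T / (J : ℝ) ^ 2) * ∑ t ∈ Icc 1 T, (∑ j ∈ range J, g (t + j)) ^ 2 + 2 * (J : ℝ) ^ 2 := by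
  have hJ0 : (0 : ℝ) < J := by exact_mod_cast hJ
  set S : ℝ := ∑ t ∈ Icc 1 T, g t with hS
  set S' : ℝ := ∑ t ∈ Icc 1 T, ∑ j ∈ range J, g (t + j) with hS'
  have h1 : |S' - J * S| ≤ (J : ℝ) ^ 2 := by
    have e1 : S' - J * S = ∑ j ∈ range J, (∑ t ∈ Icc 1 T, g (t + j) - S) := by
      rw [sum_sub_distrib, hS', sum_comm]
      simp
    rw [e1]
    refine (abs_sum_le_sum_abs _ _).trans ?_
    have e2 : ∑ j ∈ range J, |∑ t ∈ Icc 1 T, g (t + j) - S| ≤ ∑ j ∈ range J, 2 * (j : ℝ) := by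
      apply sum_le_sum
      intro j _
      exact shift_diff g hg T j
    refine e2.trans ?_
    rw [← mul_sum]
    have e3 : (∑ j ∈ range J, (j : ℝ)) * 2 = J * (J - 1) := by
      have := Finset.sum_range_id_mul_two J
      have h2 : ((∑ i ∈ range J, i : ℕ) : ℝ) * 2 = (J : ℝ) * ((J - 1 : ℕ) : ℝ) := by exact_mod_cast this
      rw [Nat.cast_sub hJ] at h2
      push_cast at h2
      exact h2
    nlinarith
  have h2 : S' ^ 2 ≤ T * ∑ t ∈ Icc 1 T, (∑ j ∈ range J, g (t + j)) ^ 2 := by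
    have := sq_sum_le_card_mul_sum_sq (s := Icc 1 T) (f := fun t => ∑ j ∈ range J, g (t + j))
    rw [Nat.card_Icc] at this
    simpa using this
  have h3 : (J * S) ^ 2 ≤ 2 * S' ^ 2 + 2 * ((J : ℝ) ^ 2) ^ 2 := by
    have e1 : (S' - J * S) ^ 2 ≤ ((J : ℝ) ^ 2) ^ 2 := by
      rw [← sq_abs]
      exact pow_le_pow_left₀ (abs_nonneg _) h1 2
    nlinarith [sq_nonneg (S' + (S' - J * S))]
  have h4 : (J : ℝ) ^ 2 * S ^ 2 ≤ (J : ℝ) ^ 2 * (2 * (T / (J : ℝ) ^ 2) * ∑ t ∈ Icc 1 T, (∑ j ∈ range J, g (t + j)) ^ 2 + 2 * (J : ℝ) ^ 2) := by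
    have e1 : (J : ℝ) ^ 2 * (2 * (T / (J : ℝ) ^ 2) * ∑ t ∈ Icc 1 T, (∑ j ∈ range J, g (t + j)) ^ 2 + 2 * (J : ℝ) ^ 2) =
        2 * (T * ∑ t ∈ Icc 1 T, (∑ j ∈ range J, g (t + j)) ^ 2) + 2 * ((J : ℝ) ^ 2) ^ 2 := by
      field_simp
    rw [e1]
    nlinarith
  exact le_of_mul_le_mul_left h4 (by positivity)

lemma sq_corr (N : ℕ) (S : Finset ℕ) (a b : ℕ → ℕ) :
    ∑ n ∈ Icc 1 N, ∑ n' ∈ Icc 1 N, (∑ t ∈ S, yy n n' (a t) * yy n n' (b t)) ^ 2 =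
      ∑ t ∈ S, ∑ t' ∈ S, Cr N (a t) (b t) (a t') (b t') ^ 2 := by
  have h1 : ∀ n n' : ℕ, (∑ t ∈ S, yy n n' (a t) * yy n n' (b t)) ^ 2 = ∑ t ∈ S, ∑ t' ∈ S,
      (lam (n + a t) * lam (n + b t) * lam (n + a t') * lam (n + b t')) * (lam (n' + a t) * lam (n' + b t) * lam (n' + a t') * lam (n' + b t')) := by
    intro n n'
    rw [sq, sum_mul_sum]
    apply sum_congr rfl; intro t _
    apply sum_congr rfl; intro t' _
    unfold yy
    ring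
  simp only [h1]
  have h2 : ∀ n ∈ Icc 1 N, ∑ n' ∈ Icc 1 N, ∑ t ∈ S, ∑ t' ∈ S,
      (lam (n + a t) * lam (n + b t) * lam (n + a t') * lam (n + b t')) * (lam (n' + a t) * lam (n' + b t) * lam (n' + a t') * lam (n' + b t')) =
      ∑ t ∈ S, ∑ t' ∈ S, ∑ n' ∈ Icc 1 N,
      (lam (n + a t) * lam (n + b t) * lam (n + a t') * lam (n + b t')) * (lam (n' + a t) * lam (n' + b t) * lam (n' + a t') * lam (n' + b t')) := by
    intro n _
    rw [sum_comm]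
    apply sum_congr rfl; intro t _
    rw [sum_comm]
  rw [sum_congr rfl h2, sum_comm]
  apply sum_congr rfl; intro t _
  rw [sum_comm]
  apply sum_congr rfl; intro t' _
  rw [sum_sq N (fun n => lam (n + a t) * lam (n + b t) * lam (n + a t') * lam (n + b t'))]
  rfl

lemma cr_abs (N a b c d : ℕ) : |Cr N a b c d| ≤ N := by
  unfold Cr
  refine (abs_sum_le_sum_abs _ _).trans ?_
  have : ∀ n ∈ Icc 1 N, |lam (n + a) * lam (n + b) * lam (n + c) * lam (n + d)| = 1 := by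
    intro n _
    rw [abs_mul, abs_mul, abs_mul, lam_abs, lam_abs, lam_abs, lam_abs]
    norm_num
  rw [sum_congr rfl this]
  simp

lemma cr_shift (N a b c d i : ℕ) :
    Cr N a b c d ^ 2 ≤ 2 * Cr N (a + i) (b + i) (c + i) (d + i) ^ 2 + 8 * (i : ℝ) ^ 2 := by
  have h1 := shift_diff (fun n => lam (n + a) * lam (n + b) * lam (n + c) * lam (n + d)) (by
    intro n
    rw [abs_mul, abs_mul, abs_mul, lam_abs, lam_abs, lam_abs, lam_abs]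
    norm_num) N i
  have h2 : ∑ n ∈ Icc 1 N, (fun n => lam (n + a) * lam (n + b) * lam (n + c) * lam (n + d)) (n + i) =
      Cr N (a + i) (b + i) (c + i) (d + i) := by
    unfold Cr
    apply sum_congr rfl; intro n _
    simp only
    have e : ∀ x : ℕ, n + i + x = n + (x + i) := fun x => by ring
    rw [e, e, e, e]
  rw [h2] at h1
  change |Cr N (a + i) (b + i) (c + i) (d + i) - Cr N a b c d| ≤ 2 * i at h1
  set X := Cr N (a + i) (b + i) (c + i) (d + i)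
  set Y := Cr N a b c d
  have h3 : (X - Y) ^ 2 ≤ (2 * (i : ℝ)) ^ 2 := by
    rw [← sq_abs]
    exact pow_le_pow_left₀ (abs_nonneg _) h1 2
  nlinarith [sq_nonneg (X + (X - Y))]

/-- the squares of the correlations along two dilates -/
noncomputable def DD (N T p q : ℕ) : ℝ := ∑ t ∈ Icc 1 T, ∑ t' ∈ Icc 1 T, Cr N (p * t) (q * t) (p * t') (q * t') ^ 2

lemma fit (N H H₁ T J P p q j j' : ℕ) (hp : p ≤ P) (hq : q ≤ P) (hpq : p ≠ q) (hj : j < J) (hj' : j' < J)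
    (hH : H₁ + P * (T + J) ≤ H) :
    ∑ t ∈ Icc 1 T, ∑ i ∈ range H₁, Cr N (p * (t + j) + i) (q * (t + j) + i) (p * (t + j') + i) (q * (t + j') + i) ^ 2 ≤
      ∑ m ∈ range H, ∑ m' ∈ range H, ∑ l ∈ range H, ∑ l' ∈ range H,
        if (m' : ℤ) = m + (p : ℤ) * ((j : ℤ) - j') ∧ (l' : ℤ) = l + (q : ℤ) * ((j : ℤ) - j') then Cr N m m' l l' ^ 2 else 0 := by
  have e2 : ∑ m ∈ range H, ∑ m' ∈ range H, ∑ l ∈ range H, ∑ l' ∈ range H,
        (if (m' : ℤ) = m + (p : ℤ) * ((j : ℤ) - j') ∧ (l' : ℤ) = l + (q : ℤ) * ((j : ℤ) - j') then Cr N m m' l l' ^ 2 else 0) =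
      ∑ z ∈ range H ×ˢ range H ×ˢ range H ×ˢ range H,
        if (z.2.1 : ℤ) = z.1 + (p : ℤ) * ((j : ℤ) - j') ∧ (z.2.2.2 : ℤ) = z.2.2.1 + (q : ℤ) * ((j : ℤ) - j') then
          Cr N z.1 z.2.1 z.2.2.1 z.2.2.2 ^ 2 else 0 := by
    rw [sum_product]
    apply sum_congr rfl; intro m _
    rw [sum_product]
    apply sum_congr rfl; intro m' _
    rw [sum_product]
  have e1 : ∑ t ∈ Icc 1 T, ∑ i ∈ range H₁, Cr N (p * (t + j) + i) (q * (t + j) + i) (p * (t + j') + i) (q * (t + j') + i) ^ 2 =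
      ∑ z ∈ Icc 1 T ×ˢ range H₁, Cr N (p * (z.1 + j) + z.2) (q * (z.1 + j) + z.2) (p * (z.1 + j') + z.2) (q * (z.1 + j') + z.2) ^ 2 := by
    rw [sum_product]
  rw [e1, e2]
  set f : ℕ × ℕ → ℕ × ℕ × ℕ × ℕ := fun z => (p * (z.1 + j') + z.2, p * (z.1 + j) + z.2, q * (z.1 + j') + z.2, q * (z.1 + j) + z.2) with hf
  have hinj : Set.InjOn f (Icc 1 T ×ˢ range H₁ : Finset (ℕ × ℕ)) := by
    rintro ⟨t, i⟩ _ ⟨t', i'⟩ _ hzw
    rw [hf] at hzw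
    simp only [Prod.mk.injEq] at hzw
    obtain ⟨h1, _, h3, _⟩ := hzw
    have h5 : ((p : ℤ) - q) * ((t : ℤ) + j') = ((p : ℤ) - q) * ((t' : ℤ) + j') := by
      have g1 : (p : ℤ) * (t + j') + i = p * (t' + j') + i' := by exact_mod_cast h1
      have g3 : (q : ℤ) * (t + j') + i = q * (t' + j') + i' := by exact_mod_cast h3
      linarith
    have h6 : ((p : ℤ) - q) ≠ 0 := by
      intro h
      apply hpq
      have : (p : ℤ) = q := by linarith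
      exact_mod_cast this
    have h7 := mul_left_cancel₀ h6 h5
    have h8 : t = t' := by
      have : (t : ℤ) = t' := by linarith
      exact_mod_cast this
    subst h8
    have h9 : i = i' := by omega
    rw [h9]
  have e3 : ∑ z ∈ Icc 1 T ×ˢ range H₁, Cr N (p * (z.1 + j) + z.2) (q * (z.1 + j) + z.2) (p * (z.1 + j') + z.2) (q * (z.1 + j') + z.2) ^ 2 =
      ∑ z ∈ (Icc 1 T ×ˢ range H₁).image f, if (z.2.1 : ℤ) = z.1 + (p : ℤ) * ((j : ℤ) - j') ∧ (z.2.2.2 : ℤ) = z.2.2.1 + (q : ℤ) * ((j : ℤ) - j') then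
          Cr N z.1 z.2.1 z.2.2.1 z.2.2.2 ^ 2 else 0 := by
    rw [sum_image hinj]
    apply sum_congr rfl
    intro z _
    rw [if_pos]
    · simp only [hf]
      congr 1
      unfold Cr
      apply sum_congr rfl; intro n _
      ring
    · constructor
      · simp only [hf]; push_cast; ring
      · simp only [hf]; push_cast; ring
  rw [e3]
  apply sum_le_sum_of_subset_of_nonneg
  · intro z hz
    rw [mem_image] at hz
    obtain ⟨w, hw, rfl⟩ := hz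
    rw [mem_product, mem_Icc, mem_range] at hw
    obtain ⟨⟨hw1, hw2⟩, hw3⟩ := hw
    have g1 : p * (w.1 + j) ≤ P * (T + J) := Nat.mul_le_mul hp (by omega)
    have g2 : p * (w.1 + j') ≤ P * (T + J) := Nat.mul_le_mul hp (by omega)
    have g3 : q * (w.1 + j) ≤ P * (T + J) := Nat.mul_le_mul hq (by omega)
    have g4 : q * (w.1 + j') ≤ P * (T + J) := Nat.mul_le_mul hq (by omega)
    simp only [hf, mem_product, mem_range]
    omega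
  · intro z _ _
    split_ifs
    · exact sq_nonneg _
    · exact le_rfl

/-- the correlations along two dilates are controlled by the energy of the pair -/
lemma DD_le (N H H₁ T J P p q : ℕ) (hp : p ≤ P) (hq : q ≤ P) (hpq : p ≠ q) (hJ : 1 ≤ J) (hH₁ : 1 ≤ H₁)
    (hH : H₁ + P * (T + J) ≤ H) :
    DD N T p q ≤ 4 * (T / ((J : ℝ) ^ 2 * H₁)) * Z N H J ((p : ℤ), (q : ℤ)) + 16 * (T : ℝ) ^ 2 * (H₁ : ℝ) ^ 2 + 2 * (J : ℝ) ^ 2 * (N : ℝ) ^ 2 := by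
  have hJ0 : (0 : ℝ) < J := by exact_mod_cast hJ
  have hH0 : (0 : ℝ) < H₁ := by exact_mod_cast hH₁
  unfold DD
  rw [← sq_corr N (Icc 1 T) (fun t => p * t) (fun t => q * t)]
  have h1 : ∀ n ∈ Icc 1 N, ∀ n' ∈ Icc 1 N, (∑ t ∈ Icc 1 T, yy n n' (p * t) * yy n n' (q * t)) ^ 2 ≤
      2 * (T / (J : ℝ) ^ 2) * ∑ t ∈ Icc 1 T, (∑ j ∈ range J, yy n n' (p * (t + j)) * yy n n' (q * (t + j))) ^ 2 + 2 * (J : ℝ) ^ 2 := by
    intro n _ n' _
    apply block_sq (fun t => yy n n' (p * t) * yy n n' (q * t)) _ T J hJ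
    intro t
    rw [abs_mul, yy_abs, yy_abs]
    norm_num
  refine (sum_le_sum fun n hn => sum_le_sum fun n' hn' => h1 n hn n' hn').trans ?_
  simp only [sum_add_distrib, ← mul_sum]
  have h2 : ∑ n ∈ Icc 1 N, ∑ n' ∈ Icc 1 N, ∑ t ∈ Icc 1 T, (∑ j ∈ range J, yy n n' (p * (t + j)) * yy n n' (q * (t + j))) ^ 2 =
      ∑ t ∈ Icc 1 T, ∑ j ∈ range J, ∑ j' ∈ range J, Cr N (p * (t + j)) (q * (t + j)) (p * (t + j')) (q * (t + j')) ^ 2 := by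
    rw [sum_congr rfl (fun n _ => sum_comm), sum_comm]
    apply sum_congr rfl; intro t _
    rw [sq_corr N (range J) (fun j => p * (t + j)) (fun j => q * (t + j))]
  rw [h2]
  have h3 : ∀ t ∈ Icc 1 T, ∀ j ∈ range J, ∀ j' ∈ range J, Cr N (p * (t + j)) (q * (t + j)) (p * (t + j')) (q * (t + j')) ^ 2 ≤
      (2 / (H₁ : ℝ)) * ∑ i ∈ range H₁, Cr N (p * (t + j) + i) (q * (t + j) + i) (p * (t + j') + i) (q * (t + j') + i) ^ 2 + 8 * (H₁ : ℝ) ^ 2 := by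
    intro t _ j _ j' _
    have e1 : ∑ i ∈ range H₁, Cr N (p * (t + j)) (q * (t + j)) (p * (t + j')) (q * (t + j')) ^ 2 ≤
        ∑ i ∈ range H₁, (2 * Cr N (p * (t + j) + i) (q * (t + j) + i) (p * (t + j') + i) (q * (t + j') + i) ^ 2 + 8 * (H₁ : ℝ) ^ 2) := by
      apply sum_le_sum
      intro i hi
      have e2 := cr_shift N (p * (t + j)) (q * (t + j)) (p * (t + j')) (q * (t + j')) i
      have e3 : (i : ℝ) ≤ H₁ := by exact_mod_cast (mem_range.1 hi).le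
      have e4 : (i : ℝ) ^ 2 ≤ (H₁ : ℝ) ^ 2 := pow_le_pow_left₀ (by positivity) e3 2
      linarith
    rw [sum_const, card_range, nsmul_eq_mul, sum_add_distrib, ← mul_sum, sum_const, card_range, nsmul_eq_mul] at e1
    have e5 : (H₁ : ℝ) * Cr N (p * (t + j)) (q * (t + j)) (p * (t + j')) (q * (t + j')) ^ 2 ≤ (H₁ : ℝ) *
        ((2 / (H₁ : ℝ)) * ∑ i ∈ range H₁, Cr N (p * (t + j) + i) (q * (t + j) + i) (p * (t + j') + i) (q * (t + j') + i) ^ 2 + 8 * (H₁ : ℝ) ^ 2) := by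
      refine e1.trans (le_of_eq ?_)
      field_simp
    exact le_of_mul_le_mul_left e5 hH0
  have h4 : ∑ t ∈ Icc 1 T, ∑ j ∈ range J, ∑ j' ∈ range J, Cr N (p * (t + j)) (q * (t + j)) (p * (t + j')) (q * (t + j')) ^ 2 ≤
      (2 / (H₁ : ℝ)) * Z N H J ((p : ℤ), (q : ℤ)) + T * (J : ℝ) ^ 2 * (8 * (H₁ : ℝ) ^ 2) := by
    refine (sum_le_sum fun t ht => sum_le_sum fun j hj => sum_le_sum fun j' hj' => h3 t ht j hj j' hj').trans ?_
    simp only [sum_add_distrib, ← mul_sum, sum_const, card_range, nsmul_eq_mul, Nat.card_Icc, Nat.add_sub_cancel]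
    have e1 : ∑ t ∈ Icc 1 T, ∑ j ∈ range J, ∑ j' ∈ range J, ∑ i ∈ range H₁,
        Cr N (p * (t + j) + i) (q * (t + j) + i) (p * (t + j') + i) (q * (t + j') + i) ^ 2 ≤ Z N H J ((p : ℤ), (q : ℤ)) := by
      rw [sum_comm]
      unfold Z
      apply sum_le_sum
      intro j hj
      rw [sum_comm]
      apply sum_le_sum
      intro j' hj'
      exact fit N H H₁ T J P p q j j' hp hq hpq (mem_range.1 hj) (mem_range.1 hj') hH
    have e2 : (2 / (H₁ : ℝ)) * (∑ t ∈ Icc 1 T, ∑ j ∈ range J, ∑ j' ∈ range J, ∑ i ∈ range H₁,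
        Cr N (p * (t + j) + i) (q * (t + j) + i) (p * (t + j') + i) (q * (t + j') + i) ^ 2) ≤ (2 / (H₁ : ℝ)) * Z N H J ((p : ℤ), (q : ℤ)) :=
      mul_le_mul_of_nonneg_left e1 (by positivity)
    have e3 : 8 * ((J : ℝ) * ((J : ℝ) * ((T : ℝ) * (H₁ : ℝ) ^ 2))) = T * (J : ℝ) ^ 2 * (8 * (H₁ : ℝ) ^ 2) := by ring
    rw [e3]
    linarith
  have h5 : 2 * (T / (J : ℝ) ^ 2) * (∑ t ∈ Icc 1 T, ∑ j ∈ range J, ∑ j' ∈ range J, Cr N (p * (t + j)) (q * (t + j)) (p * (t + j')) (q * (t + j')) ^ 2) ≤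
      2 * (T / (J : ℝ) ^ 2) * ((2 / (H₁ : ℝ)) * Z N H J ((p : ℤ), (q : ℤ)) + T * (J : ℝ) ^ 2 * (8 * (H₁ : ℝ) ^ 2)) :=
    mul_le_mul_of_nonneg_left h4 (by positivity)
  have h6 : 2 * (T / (J : ℝ) ^ 2) * ((2 / (H₁ : ℝ)) * Z N H J ((p : ℤ), (q : ℤ)) + T * (J : ℝ) ^ 2 * (8 * (H₁ : ℝ) ^ 2)) =
      4 * (T / ((J : ℝ) ^ 2 * H₁)) * Z N H J ((p : ℤ), (q : ℤ)) + 16 * (T : ℝ) ^ 2 * (H₁ : ℝ) ^ 2 := by
    field_simp
    ring
  rw [h6] at h5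
  simp only [sum_const, Nat.card_Icc, Nat.add_sub_cancel, nsmul_eq_mul]
  have h7 : 2 * ((N : ℝ) * ((N : ℝ) * (J : ℝ) ^ 2)) = 2 * (J : ℝ) ^ 2 * (N : ℝ) ^ 2 := by ring
  rw [h7]
  linarith

lemma Z_nonneg' (N H J : ℕ) (p : ℤ × ℤ) : 0 ≤ Z N H J p := by
  unfold Z
  refine sum_nonneg fun _ _ => sum_nonneg fun _ _ => sum_nonneg fun _ _ => sum_nonneg fun _ _ => sum_nonneg fun _ _ =>
    sum_nonneg fun _ _ => ?_
  split_ifs
  · exact sq_nonneg _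
  · exact le_rfl

/-- **the correlations along two dilates, on average over the pairs of prime dilates** -/
theorem dilates (P : ℕ) (η : ℝ) (hη : 0 < η) : ∃ C : ℕ, ∀ T : ℕ, C ≤ T → ∀ N : ℕ, C * T ≤ N → ∀ S : Finset ℕ,
    (∀ p ∈ S, p.Prime ∧ p ≤ P) →
    ∑ p ∈ S, ∑ q ∈ S.erase p, DD N T p q ≤ (72 * P + (S.card : ℝ) ^ 2 * η) * (T : ℝ) ^ 2 * (N : ℝ) ^ 2 := by
  obtain ⟨C₁, hC₁, h⟩ := ratioZ inp P 1 one_pos
  set J : ℕ := C₁ with hJ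
  obtain ⟨C₂, hC₂⟩ : ∃ C : ℕ, (4 * J + 32 * (P : ℝ) ^ 2 + 4) / min η 1 + J + C₁ * (4 * P + 4) ≤ C := exists_nat_ge _
  refine ⟨C₂, fun T hT N hN S hS => ?_⟩
  have hη1 : 0 < min η 1 := by positivity
  have hηη : min η 1 ≤ η := min_le_left _ _
  have hη1' : min η 1 ≤ 1 := min_le_right _ _
  set η₁ : ℝ := min η 1 with hη₁
  have hJ1 : 1 ≤ J := hC₁
  have hJ0 : (0 : ℝ) < J := by exact_mod_cast hJ1
  have hTr : (C₂ : ℝ) ≤ T := by exact_mod_cast hT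
  have hNr : (C₂ : ℝ) * T ≤ N := by exact_mod_cast hN
  have hq0 : (0 : ℝ) ≤ (4 * J + 32 * (P : ℝ) ^ 2 + 4) / η₁ := by positivity
  have hCJ : (J : ℝ) ≤ C₂ := by
    have : (0 : ℝ) ≤ C₁ * (4 * P + 4) := by positivity
    linarith
  have hC4 : (C₁ : ℝ) * (4 * P + 4) ≤ C₂ := by linarith
  have hT1 : 1 ≤ T := by
    have : (1 : ℝ) ≤ T := by
      have : (1 : ℝ) ≤ J := by exact_mod_cast hJ1
      linarith
    exact_mod_cast this
  have hT0 : (0 : ℝ) < T := by exact_mod_cast hT1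
  have hJT : J ≤ T := by
    have : (J : ℝ) ≤ T := by linarith
    exact_mod_cast this
  rcases Nat.eq_zero_or_pos P with hP | hP
  · have : S = ∅ := by
      apply eq_empty_of_forall_notMem
      intro p hp
      have := hS p hp
      have := this.1.pos
      omega
    rw [this]
    simp only [sum_empty]
    positivity
  have hP0 : (0 : ℝ) < P := by exact_mod_cast hP
  set H₁ : ℕ := P * T with hH₁
  have hH₁1 : 1 ≤ H₁ := Nat.mul_pos hP hT1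
  set H : ℕ := H₁ + P * (T + J) with hH
  have hH3 : (H : ℝ) ≤ 3 * (P * T) := by
    have : H ≤ 3 * (P * T) := by
      have : P * (T + J) ≤ P * (T + T) := Nat.mul_le_mul_left _ (by omega)
      rw [hH, hH₁]
      nlinarith
    exact_mod_cast this
  have hN1 : C₁ * (H + J) ≤ N := by
    have e1 : ((C₁ * (H + J) : ℕ) : ℝ) ≤ N := by
      push_cast
      have e2 : (H : ℝ) + J ≤ (4 * P + 4) * T := by
        have : (J : ℝ) ≤ T := by exact_mod_cast hJT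
        nlinarith
      calc (C₁ : ℝ) * (H + J) ≤ C₁ * ((4 * P + 4) * T) := mul_le_mul_of_nonneg_left e2 (by positivity)
        _ = (C₁ * (4 * P + 4)) * T := by ring
        _ ≤ C₂ * T := mul_le_mul_of_nonneg_right hC4 hT0.le
        _ ≤ N := hNr
    exact_mod_cast e1
  have key := h J le_rfl H N hN1
  rw [sum_image (sg_inj P), sum_product] at key
  -- the prime pairs are among the coprime pairs
  have h1 : ∑ p ∈ S, ∑ q ∈ S.erase p, Z N H J ((p : ℤ), (q : ℤ)) ≤ (1 + 1) * ((J : ℝ) ^ 2 * (H : ℝ) ^ 2 * (N : ℝ) ^ 2) := by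
    refine le_trans ?_ key
    rw [sum_sigma']
    have e1 : ∑ x ∈ S.sigma (fun p => S.erase p), Z N H J ((x.1 : ℤ), (x.2 : ℤ)) =
        ∑ x ∈ (S.sigma (fun p => S.erase p)).image (fun x => ((x.1, x.2) : ℕ × ℕ)), Z N H J ((x.1 : ℤ), (x.2 : ℤ)) := by
      rw [sum_image]
      rintro ⟨a, b⟩ _ ⟨c, d⟩ _ hh
      simp only [Prod.mk.injEq] at hh
      obtain ⟨rfl, rfl⟩ := hh
      rfl
    rw [e1]
    have e2 : (S.sigma (fun p => S.erase p)).image (fun x => ((x.1, x.2) : ℕ × ℕ)) ⊆ cop P := by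
      intro x hx
      rw [mem_image] at hx
      obtain ⟨⟨a, b⟩, hab, rfl⟩ := hx
      rw [mem_sigma, mem_erase] at hab
      obtain ⟨ha, hne, hb⟩ := hab
      simp only [cop, mem_filter, mem_product, mem_Icc]
      have a1 := hS a ha
      have b1 := hS b hb
      exact ⟨⟨⟨a1.1.pos, a1.2⟩, b1.1.pos, b1.2⟩, (Nat.coprime_primes a1.1 b1.1).2 (Ne.symm hne)⟩
    refine (sum_le_sum_of_subset_of_nonneg e2 fun _ _ _ => Z_nonneg' _ _ _ _).trans ?_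
    apply sum_le_sum
    intro x _
    rw [sum_pair (by norm_num)]
    simp only [sg]
    have := Z_nonneg' N H J ((x.1 : ℤ), (-1) * (x.2 : ℤ))
    rw [one_mul]
    linarith
  have h2 : ∀ p ∈ S, ∀ q ∈ S.erase p, DD N T p q ≤ 4 * (T / ((J : ℝ) ^ 2 * H₁)) * Z N H J ((p : ℤ), (q : ℤ)) + (16 * (T : ℝ) ^ 2 * (H₁ : ℝ) ^ 2 + 2 * (J : ℝ) ^ 2 * (N : ℝ) ^ 2) := by
    intro p hp q hq
    rw [mem_erase] at hq
    have := DD_le N H H₁ T J P p q (hS p hp).2 (hS q hq.2).2 (Ne.symm hq.1) hJ1 hH₁1 le_rfl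
    linarith
  have h3 : ∑ p ∈ S, ∑ q ∈ S.erase p, DD N T p q ≤ 4 * (T / ((J : ℝ) ^ 2 * H₁)) * ((1 + 1) * ((J : ℝ) ^ 2 * (H : ℝ) ^ 2 * (N : ℝ) ^ 2)) +
      (S.card : ℝ) ^ 2 * (16 * (T : ℝ) ^ 2 * (H₁ : ℝ) ^ 2 + 2 * (J : ℝ) ^ 2 * (N : ℝ) ^ 2) := by
    refine (sum_le_sum fun p hp => sum_le_sum fun q hq => h2 p hp q hq).trans ?_
    obtain ⟨E, hE⟩ : ∃ E : ℝ, E = 16 * (T : ℝ) ^ 2 * (H₁ : ℝ) ^ 2 + 2 * (J : ℝ) ^ 2 * (N : ℝ) ^ 2 := ⟨_, rfl⟩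
    have hE0 : 0 ≤ E := by rw [hE]; positivity
    rw [← hE]
    have e1 : ∀ p ∈ S, ∑ q ∈ S.erase p, (4 * (T / ((J : ℝ) ^ 2 * H₁)) * Z N H J ((p : ℤ), (q : ℤ)) + E) ≤
        4 * (T / ((J : ℝ) ^ 2 * H₁)) * ∑ q ∈ S.erase p, Z N H J ((p : ℤ), (q : ℤ)) + S.card * E := by
      intro p _
      rw [sum_add_distrib, ← mul_sum, sum_const, nsmul_eq_mul]
      have : ((S.erase p).card : ℝ) * E ≤ S.card * E := by
        apply mul_le_mul_of_nonneg_right _ hE0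
        exact_mod_cast card_le_card (erase_subset _ _)
      linarith
    refine (sum_le_sum e1).trans ?_
    rw [sum_add_distrib, ← mul_sum, sum_const, nsmul_eq_mul]
    have e2 : 4 * (T / ((J : ℝ) ^ 2 * H₁)) * ∑ p ∈ S, ∑ q ∈ S.erase p, Z N H J ((p : ℤ), (q : ℤ)) ≤
        4 * (T / ((J : ℝ) ^ 2 * H₁)) * ((1 + 1) * ((J : ℝ) ^ 2 * (H : ℝ) ^ 2 * (N : ℝ) ^ 2)) :=
      mul_le_mul_of_nonneg_left h1 (by positivity)
    have e3 : (S.card : ℝ) * (S.card * E) = (S.card : ℝ) ^ 2 * E := by ring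
    rw [e3]
    linarith
  have h4 : 4 * (T / ((J : ℝ) ^ 2 * H₁)) * ((1 + 1) * ((J : ℝ) ^ 2 * (H : ℝ) ^ 2 * (N : ℝ) ^ 2)) ≤ 72 * P * (T : ℝ) ^ 2 * (N : ℝ) ^ 2 := by
    have e1 : (H : ℝ) ^ 2 ≤ (3 * (P * T)) ^ 2 := pow_le_pow_left₀ (by positivity) hH3 2
    have e2 : (H₁ : ℝ) = P * T := by rw [hH₁]; push_cast; ring
    calc 4 * (T / ((J : ℝ) ^ 2 * H₁)) * ((1 + 1) * ((J : ℝ) ^ 2 * (H : ℝ) ^ 2 * (N : ℝ) ^ 2)) ≤
          4 * (T / ((J : ℝ) ^ 2 * H₁)) * ((1 + 1) * ((J : ℝ) ^ 2 * (3 * (P * T)) ^ 2 * (N : ℝ) ^ 2)) := by gcongr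
      _ = _ := by
          rw [e2]
          field_simp
          ring
  have h5 : 16 * (H₁ : ℝ) ^ 2 ≤ η / 2 * (N : ℝ) ^ 2 := by
    have e2 : (H₁ : ℝ) = P * T := by rw [hH₁]; push_cast; ring
    have e3 : 32 * (P : ℝ) ^ 2 / η₁ * T ≤ N := by
      refine le_trans ?_ hNr
      apply mul_le_mul_of_nonneg_right _ hT0.le
      have e4 : 32 * (P : ℝ) ^ 2 / η₁ ≤ (4 * J + 32 * (P : ℝ) ^ 2 + 4) / η₁ := by
        apply div_le_div_of_nonneg_right _ hη1.le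
        linarith
      have e5 : (0 : ℝ) ≤ C₁ * (4 * P + 4) := by positivity
      linarith
    have e4 : (32 * (P : ℝ) ^ 2 / η₁ * T) ^ 2 ≤ (N : ℝ) ^ 2 := pow_le_pow_left₀ (by positivity) e3 2
    have e5 : 16 * (H₁ : ℝ) ^ 2 ≤ η₁ / 2 * (32 * (P : ℝ) ^ 2 / η₁ * T) ^ 2 := by
      have e6 : η₁ / 2 * (32 * (P : ℝ) ^ 2 / η₁ * T) ^ 2 = 512 * (P : ℝ) ^ 4 * (T : ℝ) ^ 2 / η₁ := by
        field_simp
        norm_num
      rw [e6, le_div_iff₀ hη1, e2]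
      have hP1 : (1 : ℝ) ≤ P := by exact_mod_cast hP
      have e7 : (P : ℝ) ^ 2 ≤ (P : ℝ) ^ 4 := pow_le_pow_right₀ hP1 (by norm_num)
      have e8 : 16 * ((P : ℝ) * T) ^ 2 * η₁ ≤ 16 * ((P : ℝ) * T) ^ 2 * 1 := mul_le_mul_of_nonneg_left hη1' (by positivity)
      have e9 : (P : ℝ) ^ 2 * (T : ℝ) ^ 2 ≤ (P : ℝ) ^ 4 * (T : ℝ) ^ 2 := mul_le_mul_of_nonneg_right e7 (by positivity)
      nlinarith [sq_nonneg ((P : ℝ) * T)]
    have e10 : η₁ / 2 * (32 * (P : ℝ) ^ 2 / η₁ * T) ^ 2 ≤ η / 2 * (N : ℝ) ^ 2 := by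
      calc η₁ / 2 * (32 * (P : ℝ) ^ 2 / η₁ * T) ^ 2 ≤ η₁ / 2 * (N : ℝ) ^ 2 := mul_le_mul_of_nonneg_left e4 (by positivity)
        _ ≤ _ := by
            apply mul_le_mul_of_nonneg_right _ (by positivity)
            linarith
    linarith
  have h6 : 2 * (J : ℝ) ^ 2 ≤ η / 2 * (T : ℝ) ^ 2 := by
    have e3 : 4 * (J : ℝ) / η₁ ≤ T := by
      refine le_trans ?_ hTr
      have e4 : 4 * (J : ℝ) / η₁ ≤ (4 * J + 32 * (P : ℝ) ^ 2 + 4) / η₁ := by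
        apply div_le_div_of_nonneg_right _ hη1.le
        nlinarith [sq_nonneg (P : ℝ)]
      have e5 : (0 : ℝ) ≤ C₁ * (4 * P + 4) := by positivity
      linarith
    have e4 : (4 * (J : ℝ) / η₁) ^ 2 ≤ (T : ℝ) ^ 2 := pow_le_pow_left₀ (by positivity) e3 2
    have e5 : 2 * (J : ℝ) ^ 2 ≤ η₁ / 2 * (4 * (J : ℝ) / η₁) ^ 2 := by
      have e6 : η₁ / 2 * (4 * (J : ℝ) / η₁) ^ 2 = 8 * (J : ℝ) ^ 2 / η₁ := by
        field_simp
        norm_num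
      rw [e6, le_div_iff₀ hη1]
      have e8 : 2 * (J : ℝ) ^ 2 * η₁ ≤ 2 * (J : ℝ) ^ 2 * 1 := mul_le_mul_of_nonneg_left hη1' (by positivity)
      nlinarith [sq_nonneg (J : ℝ)]
    calc 2 * (J : ℝ) ^ 2 ≤ η₁ / 2 * (4 * (J : ℝ) / η₁) ^ 2 := e5
      _ ≤ η₁ / 2 * (T : ℝ) ^ 2 := mul_le_mul_of_nonneg_left e4 (by positivity)
      _ ≤ _ := by
          apply mul_le_mul_of_nonneg_right _ (by positivity)
          linarith
  have h7 : 16 * (T : ℝ) ^ 2 * (H₁ : ℝ) ^ 2 + 2 * (J : ℝ) ^ 2 * (N : ℝ) ^ 2 ≤ η * ((T : ℝ) ^ 2 * (N : ℝ) ^ 2) := by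
    have e1 : (T : ℝ) ^ 2 * (16 * (H₁ : ℝ) ^ 2) ≤ (T : ℝ) ^ 2 * (η / 2 * (N : ℝ) ^ 2) := mul_le_mul_of_nonneg_left h5 (by positivity)
    have e2 : 2 * (J : ℝ) ^ 2 * (N : ℝ) ^ 2 ≤ η / 2 * (T : ℝ) ^ 2 * (N : ℝ) ^ 2 := mul_le_mul_of_nonneg_right h6 (by positivity)
    linarith
  have h8 : (S.card : ℝ) ^ 2 * (16 * (T : ℝ) ^ 2 * (H₁ : ℝ) ^ 2 + 2 * (J : ℝ) ^ 2 * (N : ℝ) ^ 2) ≤ (S.card : ℝ) ^ 2 * (η * ((T : ℝ) ^ 2 * (N : ℝ) ^ 2)) :=
    mul_le_mul_of_nonneg_left h7 (by positivity)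
  calc ∑ p ∈ S, ∑ q ∈ S.erase p, DD N T p q ≤ _ := h3
    _ ≤ 72 * P * (T : ℝ) ^ 2 * (N : ℝ) ^ 2 + (S.card : ℝ) ^ 2 * (η * ((T : ℝ) ^ 2 * (N : ℝ) ^ 2)) := add_le_add h4 h8
    _ = _ := by ring

end Pool.Agent.K1H48.MT
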