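import Pool.Agent.K1H48.MT.Block
import Pool.Agent.W24.Katai

set_option autoImplicit false

/-! The criterion of Kátai for one window, and the choice of the blocks of primes. -/

namespace Pool.Agent.K1H48.MT
open Finset Pool.Agent.K1H48.RB Pool.Agent.W24.Katai

lemma one_window {Q : Finset ℕ} (hQ : ∀ p ∈ Q, p.Prime) (M : ℕ) (F G u w : ℕ → ℂ) (hF : ∀ m, ‖F m‖ ≤ 1) (hG : ∀ m, ‖G m‖ ≤ 1)
    (hu : ∀ p, ‖u p‖ ≤ 1) (hw : ∀ m, ‖w m‖ ≤ 1) (hmul : ∀ p ∈ Q, ∀ m : ℕ, 1 ≤ m → ¬ p ∣ m → F (p * m) = u p * G m) :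
    SS Q * ‖∑ m ∈ Ioc 0 M, F m * w m‖ ≤ √(M * (M * SS Q + 2 * SS Q * (Q.card : ℝ))) + 2 * M +
      ‖∑ p ∈ Q, ∑ t ∈ Ioc 0 (M / p), u p * G t * w (p * t)‖ := by
  have hFw : ∀ n, ‖F n * w n‖ ≤ 1 := by
    intro n
    rw [norm_mul]
    calc ‖F n‖ * ‖w n‖ ≤ 1 * 1 := mul_le_mul (hF n) (hw n) (norm_nonneg _) zero_le_one
      _ = 1 := one_mul 1
  have h1 := step1 hQ hFw (g := fun _ => (1 : ℂ)) ⟨fun _ => by simp, fun _ _ => by simp⟩ M
  simp only [one_mul] at h1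
  have h2 : ‖∑ p ∈ Q, ∑ m ∈ Ioc 0 (M / p), F (p * m) * w (p * m) -
      ∑ p ∈ Q, ∑ m ∈ Ioc 0 (M / p), u p * G m * w (p * m)‖ ≤ 2 * M * ∑ p ∈ Q, 1 / (p:ℝ)^2 := by
    rw [← Finset.sum_sub_distrib, Finset.mul_sum]
    refine (norm_sum_le _ _).trans (Finset.sum_le_sum (fun p hp => ?_))
    have hp0 : (0:ℝ) < p := by exact_mod_cast (hQ p hp).pos
    rw [← Finset.sum_sub_distrib]
    have e1 : ∀ m ∈ Ioc 0 (M / p), ‖F (p * m) * w (p * m) - u p * G m * w (p * m)‖ ≤ 2 * (if p ∣ m then (1:ℝ) else 0) := by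
      intro m hm
      rw [mem_Ioc] at hm
      split_ifs with h
      · refine (norm_sub_le _ _).trans ?_
        have a1 := hF (p * m)
        have a2 := hu p
        have a3 := hG m
        have a4 := hw (p * m)
        rw [norm_mul, norm_mul, norm_mul]
        have b1 : ‖F (p * m)‖ * ‖w (p * m)‖ ≤ 1 * 1 := by gcongr
        have b2 : ‖u p‖ * ‖G m‖ * ‖w (p * m)‖ ≤ 1 * 1 * 1 := by gcongr
        linarith
      · rw [hmul p hp m hm.1 h, sub_self, norm_zero, mul_zero]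
    refine (norm_sum_le _ _).trans ((Finset.sum_le_sum e1).trans ?_)
    rw [← Finset.mul_sum, mult_count]
    have e4 : (((M / p) / p : ℕ) : ℝ) ≤ ((M / p : ℕ) : ℝ) / p := Nat.cast_div_le
    have e5 : ((M / p : ℕ) : ℝ) ≤ (M:ℝ) / p := Nat.cast_div_le
    calc 2 * (((M / p) / p : ℕ) : ℝ) ≤ 2 * ((M:ℝ) / p / p) := by
          have : ((M / p : ℕ) : ℝ) / p ≤ (M:ℝ) / p / p := by gcongr
          linarith
      _ = 2 * M * (1 / (p:ℝ)^2) := by field_simp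
  have h3 : 2 * (M : ℝ) * ∑ p ∈ Q, 1 / (p:ℝ)^2 ≤ 2 * M := by
    have := sum_inv_sq_le hQ
    have hM : (0 : ℝ) ≤ 2 * M := by positivity
    nlinarith
  have h4 : SS Q * ‖∑ m ∈ Ioc 0 M, F m * w m‖ = ‖(SS Q : ℂ) * ∑ m ∈ Ioc 0 M, F m * w m‖ := by
    rw [norm_mul, Complex.norm_real, Real.norm_of_nonneg (SS_nonneg Q)]
  rw [h4]
  have h5 : (SS Q : ℂ) * ∑ m ∈ Ioc 0 M, F m * w m =
      ((SS Q : ℂ) * ∑ m ∈ Ioc 0 M, F m * w m - ∑ p ∈ Q, ∑ m ∈ Ioc 0 (M / p), F (p * m) * w (p * m)) +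
      (∑ p ∈ Q, ∑ m ∈ Ioc 0 (M / p), F (p * m) * w (p * m) - ∑ p ∈ Q, ∑ m ∈ Ioc 0 (M / p), u p * G m * w (p * m)) +
      ∑ p ∈ Q, ∑ m ∈ Ioc 0 (M / p), u p * G m * w (p * m) := by ring
  rw [h5]
  refine (norm_add₃_le).trans ?_
  linarith

/-- the primes of a dyadic block -/
def PB (i : ℕ) : Finset ℕ := (Ioc (2 ^ i) (2 ^ (i + 1))).filter Nat.Prime

lemma PB_prime {i p : ℕ} (h : p ∈ PB i) : p.Prime := (mem_filter.1 h).2

lemma PB_gt {i p : ℕ} (h : p ∈ PB i) : 2 ^ i < p := (mem_Ioc.1 (mem_filter.1 h).1).1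

lemma PB_le {i p : ℕ} (h : p ∈ PB i) : p ≤ 2 ^ (i + 1) := (mem_Ioc.1 (mem_filter.1 h).1).2

lemma PB_disj {i j : ℕ} (h : i ≠ j) : Disjoint (PB i) (PB j) := by
  rw [disjoint_left]
  intro p hp hq
  rcases Nat.lt_or_gt_of_ne h with h1 | h1
  · have h2 := PB_le hp
    have h3 := PB_gt hq
    have h4 : 2 ^ (i + 1) ≤ 2 ^ j := Nat.pow_le_pow_right (by norm_num) h1
    omega
  · have h2 := PB_gt hp
    have h3 := PB_le hq
    have h4 : 2 ^ (j + 1) ≤ 2 ^ i := Nat.pow_le_pow_right (by norm_num) h1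
    omega

lemma SS_PB_le (i : ℕ) : SS (PB i) ≤ (PB i).card / 2 ^ i := by
  unfold SS
  rw [← nsmul_one, ← sum_const]
  rw [sum_div]
  apply sum_le_sum
  intro p hp
  have h1 : (2 : ℝ) ^ i ≤ p := by exact_mod_cast (PB_gt hp).le
  gcongr

lemma le_SS_PB (i : ℕ) : ((PB i).card : ℝ) / 2 ^ i ≤ 2 * SS (PB i) := by
  unfold SS
  rw [← nsmul_one, ← sum_const]
  rw [sum_div, mul_sum]
  apply sum_le_sum
  intro p hp
  have h1 : (p : ℝ) ≤ 2 ^ (i + 1) := by exact_mod_cast PB_le hp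
  have h0 : (0 : ℝ) < p := by exact_mod_cast (PB_prime hp).pos
  rw [div_le_iff₀ (by positivity)]
  have h2 : 2 * (1 / (p : ℝ)) * 2 ^ i = 2 ^ (i + 1) / p := by
    rw [pow_succ]
    field_simp
  rw [h2, le_div_iff₀ h0]
  linarith

/-- the good blocks carry a divergent sum of inverses -/
lemma good_blocks (Γ A : ℝ) (hΓ : 0 ≤ Γ) : ∃ I : Finset ℕ, (∀ i ∈ I, Γ * (3 / 2) ^ i < ((PB i).card : ℝ)) ∧
    A ≤ SS (I.biUnion PB) := by
  classical
  obtain ⟨P, hP⟩ := Pool.Agent.TH823.MRS.LS_large (A + 4 * Γ + 1)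
  refine ⟨(range P).filter fun i => Γ * (3 / 2) ^ i < ((PB i).card : ℝ), fun i hi => (mem_filter.1 hi).2, ?_⟩
  have h1 : SS (((range P).filter fun i => Γ * (3 / 2) ^ i < ((PB i).card : ℝ)).biUnion PB) =
      ∑ i ∈ (range P).filter fun i => Γ * (3 / 2) ^ i < ((PB i).card : ℝ), SS (PB i) := by
    unfold SS
    rw [sum_biUnion]
    intro i _ j _ hij
    exact PB_disj hij
  rw [h1]
  have h2 : Pool.Agent.TH823.MRS.LS P ≤ 1 + ∑ i ∈ range P, SS (PB i) := by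
    have e1 : ∑ i ∈ range P, SS (PB i) = SS ((range P).biUnion PB) := by
      unfold SS
      rw [sum_biUnion]
      intro i _ j _ hij
      exact PB_disj hij
    rw [e1]
    unfold Pool.Agent.TH823.MRS.LS SS
    have e2 : Pool.Agent.TH823.MRS.PS P ⊆ insert 2 ((range P).biUnion PB) := by
      intro p hp
      unfold Pool.Agent.TH823.MRS.PS at hp
      rw [mem_filter, mem_Icc] at hp
      rw [mem_insert]
      by_cases h : p = 2
      · exact Or.inl h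
      · right
        rw [mem_biUnion]
        have hp3 : 2 ≤ p - 1 := by omega
        refine ⟨Nat.log 2 (p - 1), ?_, ?_⟩
        · rw [mem_range]
          calc Nat.log 2 (p - 1) ≤ p - 1 := Nat.log_le_self _ _
            _ < P := by omega
        · unfold PB
          rw [mem_filter, mem_Ioc]
          have h5 : 2 ^ Nat.log 2 (p - 1) ≤ p - 1 := Nat.pow_log_le_self 2 (by omega)
          have h6 : p - 1 < 2 ^ (Nat.log 2 (p - 1) + 1) := Nat.lt_pow_succ_log_self (by norm_num) _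
          exact ⟨⟨by omega, by omega⟩, hp.2⟩
    calc ∑ p ∈ Pool.Agent.TH823.MRS.PS P, 1 / (p : ℝ) ≤ ∑ p ∈ insert 2 ((range P).biUnion PB), 1 / (p : ℝ) :=
          sum_le_sum_of_subset_of_nonneg e2 fun _ _ _ => by positivity
      _ ≤ 1 / ((2 : ℕ) : ℝ) + ∑ p ∈ (range P).biUnion PB, 1 / (p : ℝ) := by
          by_cases h : 2 ∈ (range P).biUnion PB
          · rw [insert_eq_of_mem h]
            have : (0 : ℝ) ≤ 1 / ((2 : ℕ) : ℝ) := by positivity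
            linarith
          · rw [sum_insert h]
      _ ≤ _ := by norm_num
  have h3 : ∑ i ∈ range P, SS (PB i) = ∑ i ∈ (range P).filter (fun i => Γ * (3 / 2) ^ i < ((PB i).card : ℝ)), SS (PB i) +
      ∑ i ∈ (range P).filter (fun i => ¬ Γ * (3 / 2) ^ i < ((PB i).card : ℝ)), SS (PB i) :=
    (sum_filter_add_sum_filter_not _ _ _).symm
  have h4 : ∑ i ∈ (range P).filter (fun i => ¬ Γ * (3 / 2) ^ i < ((PB i).card : ℝ)), SS (PB i) ≤ 4 * Γ := by
    have e1 : ∀ i ∈ (range P).filter (fun i => ¬ Γ * (3 / 2) ^ i < ((PB i).card : ℝ)), SS (PB i) ≤ Γ * (3 / 4) ^ i := by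
      intro i hi
      have e2 := (mem_filter.1 hi).2
      push Not at e2
      refine (SS_PB_le i).trans ?_
      rw [div_le_iff₀ (by positivity), mul_assoc, ← mul_pow]
      norm_num at e2 ⊢
      exact e2
    refine (sum_le_sum e1).trans ?_
    have e3 : ∑ i ∈ (range P).filter (fun i => ¬ Γ * (3 / 2) ^ i < ((PB i).card : ℝ)), Γ * (3 / 4 : ℝ) ^ i ≤
        ∑ i ∈ range P, Γ * (3 / 4 : ℝ) ^ i :=
      sum_le_sum_of_subset_of_nonneg (filter_subset _ _) fun _ _ _ => by positivity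
    refine e3.trans ?_
    rw [← mul_sum, geom_sum_eq (by norm_num)]
    have e4 : (0 : ℝ) ≤ (3 / 4) ^ P := by positivity
    have e5 : ((3 / 4 : ℝ) ^ P - 1) / (3 / 4 - 1) = 4 * (1 - (3 / 4) ^ P) := by ring
    rw [e5]
    nlinarith
  linarith

/-- **orthogonality of `λ` on almost all windows to multiplicative functions** -/
theorem twists (ε : ℝ) (hε : 0 < ε) : ∃ C : ℕ, 1 ≤ C ∧ ∀ M N : ℕ, C ≤ M → C * M ≤ N →
    ∀ (F G u : ℕ → ℕ → ℂ) (b : ℕ → ℂ), (∀ n m, ‖F n m‖ ≤ 1) → (∀ n m, ‖G n m‖ ≤ 1) → (∀ n p, ‖u n p‖ ≤ 1) → (∀ m, ‖b m‖ ≤ 1) →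
      (∀ n p m : ℕ, p.Prime → p ≤ C → 1 ≤ m → ¬ p ∣ m → F n (p * m) = u n p * G n m) →
      ∑ n ∈ Icc 1 N, ‖∑ m ∈ Icc 1 M, b m * F n m * ((lam (n + m) : ℝ) : ℂ)‖ ≤ ε * M * N := by
  classical
  set σ : ℝ := min (ε / 16) 1 with hσ
  have hσ0 : 0 < σ := by rw [hσ]; positivity
  have hσε : σ ≤ ε / 16 := min_le_left _ _
  have hσ1 : σ ≤ 1 := min_le_right _ _
  set τ : ℝ := σ ^ 2 / 8 with hτ
  have hτ0 : 0 < τ := by positivity
  set η : ℝ := σ ^ 8 / 2048 with hη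
  have hη0 : 0 < η := by positivity
  set Γ : ℝ := 600 / σ ^ 4 with hΓ
  have hΓ0 : 0 < Γ := by positivity
  obtain ⟨I, hI1, hI2⟩ := good_blocks Γ (32 / ε ^ 2 + 8 / ε) hΓ0.le
  set Q : Finset ℕ := I.biUnion PB with hQ
  have hQp : ∀ p ∈ Q, p.Prime := by
    intro p hp
    rw [hQ, mem_biUnion] at hp
    obtain ⟨i, _, hi⟩ := hp
    exact PB_prime hi
  -- the constants of the blocks
  have hD : ∀ i : ℕ, ∃ C : ℕ, 1 ≤ C ∧ ∀ T N : ℕ, C ≤ T → C * T ≤ N →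
      ∑ p ∈ PB i, ∑ q ∈ (PB i).erase p, DD N T p q ≤ (72 * ((2 ^ (i + 1) : ℕ) : ℝ) + ((PB i).card : ℝ) ^ 2 * η) * (T : ℝ) ^ 2 * (N : ℝ) ^ 2 := by
    intro i
    obtain ⟨C, hC⟩ := dilates (2 ^ (i + 1)) η hη0
    refine ⟨max C 1, le_max_right _ _, ?_⟩
    intro T N hT hN
    have h1 : C ≤ T := (le_max_left _ _).trans hT
    have h2 : C * T ≤ N := (Nat.mul_le_mul_right T (le_max_left C 1)).trans hN
    have h3 := hC T h1 N h2 (PB i) fun p hp => ⟨PB_prime hp, PB_le hp⟩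
    exact_mod_cast h3
  choose c hc1 hc2 using hD
  set C : ℕ := (∑ i ∈ I, (c i * 2 ^ i + 2 ^ (i + 1))) + 2 * Q.card + 1 with hC
  have hCi : ∀ i ∈ I, c i * 2 ^ i + 2 ^ (i + 1) ≤ C := by
    intro i hi
    have : c i * 2 ^ i + 2 ^ (i + 1) ≤ ∑ i ∈ I, (c i * 2 ^ i + 2 ^ (i + 1)) :=
      single_le_sum (f := fun i => c i * 2 ^ i + 2 ^ (i + 1)) (fun _ _ => Nat.zero_le _) hi
    omega
  refine ⟨C, by omega, ?_⟩
  intro M N hM hN F G u b hF hG hu hb hmul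
  have hM1 : 1 ≤ M := by omega
  have hN1 : 1 ≤ N := by
    calc 1 ≤ C * M := Nat.mul_pos (by omega) hM1
      _ ≤ N := hN
  have hM0 : (0 : ℝ) < M := by exact_mod_cast hM1
  have hN0 : (0 : ℝ) < N := by exact_mod_cast hN1
  set A : ℝ := SS Q with hA
  have hA1 : 32 / ε ^ 2 ≤ A := by
    have : (0 : ℝ) < 8 / ε := by positivity
    linarith
  have hA2 : 8 / ε ≤ A := by
    have : (0 : ℝ) < 32 / ε ^ 2 := by positivity
    linarith
  have hA0 : 0 < A := lt_of_lt_of_le (by positivity) hA2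
  set w : ℕ → ℕ → ℂ := fun n m => b m * ((lam (n + m) : ℝ) : ℂ) with hw
  have hw1 : ∀ n m, ‖w n m‖ ≤ 1 := by
    intro n m
    rw [hw]
    simp only
    rw [norm_mul, Complex.norm_real, Real.norm_eq_abs, lam_abs, mul_one]
    exact hb m
  set X : ℕ → ℕ → ℝ := fun n i => ‖∑ p ∈ PB i, ∑ t ∈ Ioc 0 (M / p), u n p * G n t * (b (p * t) * ((lam (n + p * t) : ℝ) : ℂ))‖ with hX
  have h1 : ∀ n ∈ Icc 1 N, A * ‖∑ m ∈ Icc 1 M, b m * F n m * ((lam (n + m) : ℝ) : ℂ)‖ ≤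
      M * √(2 * A) + 2 * M + ∑ i ∈ I, X n i := by
    intro n _
    have e1 := one_window hQp M (F n) (G n) (u n) (w n) (hF n) (hG n) (hu n) (hw1 n) (by
      intro p hp m hm hpm
      apply hmul n p m (hQp p hp) _ hm hpm
      rw [hQ, mem_biUnion] at hp
      obtain ⟨i, hi, hpi⟩ := hp
      have := PB_le hpi
      have := hCi i hi
      omega)
    have e2 : ∑ m ∈ Icc 1 M, b m * F n m * ((lam (n + m) : ℝ) : ℂ) = ∑ m ∈ Ioc 0 M, F n m * w n m := by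
      apply sum_congr
      · ext x
        simp only [mem_Icc, mem_Ioc]
        omega
      · intro m _
        rw [hw]
        simp only
        ring
    rw [e2]
    refine e1.trans ?_
    have e3 : √((M : ℝ) * (M * A + 2 * A * (Q.card : ℝ))) ≤ M * √(2 * A) := by
      have f1 : (2 * (Q.card : ℝ)) ≤ M := by
        have : 2 * Q.card ≤ M := by omega
        exact_mod_cast this
      have f2 : (M : ℝ) * √(2 * A) = √((M : ℝ) ^ 2 * (2 * A)) := by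
        rw [Real.sqrt_mul (sq_nonneg (M : ℝ)), Real.sqrt_sq hM0.le]
      rw [f2]
      apply Real.sqrt_le_sqrt
      have f3 : 2 * A * (Q.card : ℝ) ≤ A * M := by nlinarith
      nlinarith
    have e4 : ‖∑ p ∈ Q, ∑ t ∈ Ioc 0 (M / p), u n p * G n t * w n (p * t)‖ ≤ ∑ i ∈ I, X n i := by
      rw [hQ, sum_biUnion (fun i _ j _ hij => PB_disj hij)]
      exact norm_sum_le _ _
    linarith
  have h2 : ∀ i ∈ I, ∑ n ∈ Icc 1 N, X n i ≤ 4 * σ * N * M * SS (PB i) := by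
    intro i hi
    have hCi' := hCi i hi
    have hp2 : 0 < 2 ^ i := by positivity
    have hT : c i ≤ M / 2 ^ i := by
      rw [Nat.le_div_iff_mul_le hp2]
      omega
    have hT1 : 1 ≤ M / 2 ^ i := (hc1 i).trans hT
    have hN' : c i * (M / 2 ^ i) ≤ N := by
      refine le_trans (Nat.mul_le_mul ?_ (Nat.div_le_self M _)) hN
      have : c i * 1 ≤ c i * 2 ^ i := Nat.mul_le_mul_left _ hp2
      omega
    have hk := hI1 i hi
    have hkΓ : Γ ≤ ((PB i).card : ℝ) := by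
      have e1 : (1 : ℝ) ≤ (3 / 2) ^ i := one_le_pow₀ (by norm_num)
      nlinarith
    have hΓ2 : 600 ≤ Γ := by
      rw [hΓ, le_div_iff₀ (by positivity)]
      have : σ ^ 4 ≤ 1 := pow_le_one₀ hσ0.le hσ1
      linarith
    have hk1 : 1 ≤ (PB i).card := by
      have : (1 : ℝ) ≤ ((PB i).card : ℝ) := by linarith
      exact_mod_cast this
    have hk0 : (0 : ℝ) < ((PB i).card : ℝ) := by exact_mod_cast hk1
    have hblock := block N (M / 2 ^ i) M (2 ^ (i + 1)) (PB i).card hN1 hT1 hk1 (PB i) rfl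
      (fun p hp => Nat.div_le_div_left (PB_gt hp).le hp2) η τ σ hη0 hτ0 hσ0 (hc2 i _ N hT hN')
      (fun p hp => (PB_prime hp).pos) u G b hu hG hb
    have e1 : (1 : ℝ) / (PB i).card ≤ σ ^ 2 / 4 := by
      rw [div_le_iff₀ hk0]
      have f1 : σ ^ 2 / 4 * Γ = 150 / σ ^ 2 := by
        rw [hΓ]
        field_simp
        norm_num
      have f2 : (1 : ℝ) ≤ 150 / σ ^ 2 := by
        rw [le_div_iff₀ (by positivity)]
        have : σ ^ 2 ≤ 1 := pow_le_one₀ hσ0.le hσ1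
        linarith
      have f3 : σ ^ 2 / 4 * Γ ≤ σ ^ 2 / 4 * ((PB i).card : ℝ) := mul_le_mul_of_nonneg_left hkΓ (by positivity)
      linarith
    have e2 : 72 * ((2 ^ (i + 1) : ℕ) : ℝ) / ((PB i).card : ℝ) ^ 2 ≤ σ ^ 8 / 2048 := by
      rw [div_le_iff₀ (by positivity)]
      have f1 : (Γ * (3 / 2) ^ i) ^ 2 ≤ ((PB i).card : ℝ) ^ 2 := pow_le_pow_left₀ (by positivity) hk.le 2
      have f2 : (Γ * (3 / 2) ^ i) ^ 2 = Γ ^ 2 * (9 / 4) ^ i := by
        rw [mul_pow, ← pow_mul, mul_comm i 2, pow_mul]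
        norm_num
      have f3 : (2 : ℝ) ^ i ≤ (9 / 4) ^ i := pow_le_pow_left₀ (by norm_num) (by norm_num) i
      have f4 : σ ^ 8 / 2048 * Γ ^ 2 = 360000 / 2048 := by
        rw [hΓ]
        field_simp
        norm_num
      have f5 : ((2 ^ (i + 1) : ℕ) : ℝ) = 2 * 2 ^ i := by
        push_cast
        ring
      rw [f5]
      calc 72 * (2 * (2 : ℝ) ^ i) ≤ 360000 / 2048 * (9 / 4) ^ i := by nlinarith
        _ = σ ^ 8 / 2048 * (Γ ^ 2 * (9 / 4) ^ i) := by rw [← f4]; ring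
        _ ≤ σ ^ 8 / 2048 * ((PB i).card : ℝ) ^ 2 := by
            rw [← f2]
            exact mul_le_mul_of_nonneg_left f1 (by positivity)
    have e3 : (72 * ((2 ^ (i + 1) : ℕ) : ℝ) / ((PB i).card : ℝ) ^ 2 + η) / τ ^ 3 ≤ σ ^ 2 / 2 := by
      rw [div_le_iff₀ (by positivity)]
      have : σ ^ 2 / 2 * τ ^ 3 = σ ^ 8 / 2048 + σ ^ 8 / 2048 := by
        rw [hτ]
        ring
      rw [this]
      linarith
    have e4 : (1 / σ) * (1 / ((PB i).card : ℝ) + 2 * τ + (72 * ((2 ^ (i + 1) : ℕ) : ℝ) / ((PB i).card : ℝ) ^ 2 + η) / τ ^ 3) ≤ σ := by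
      rw [one_div, inv_mul_le_iff₀ hσ0]
      have : 2 * τ = σ ^ 2 / 4 := by
        rw [hτ]
        ring
      nlinarith
    have e5 : ((M / 2 ^ i : ℕ) : ℝ) * ((PB i).card : ℝ) ≤ 2 * M * SS (PB i) := by
      have f1 : ((M / 2 ^ i : ℕ) : ℝ) ≤ (M : ℝ) / 2 ^ i := by
        have := Nat.cast_div_le (α := ℝ) (m := M) (n := 2 ^ i)
        exact_mod_cast this
      have f2 := le_SS_PB i
      calc ((M / 2 ^ i : ℕ) : ℝ) * ((PB i).card : ℝ) ≤ (M : ℝ) / 2 ^ i * ((PB i).card : ℝ) :=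
            mul_le_mul_of_nonneg_right f1 hk0.le
        _ = M * (((PB i).card : ℝ) / 2 ^ i) := by ring
        _ ≤ M * (2 * SS (PB i)) := mul_le_mul_of_nonneg_left f2 hM0.le
        _ = _ := by ring
    refine hblock.trans ?_
    have e6 : (N : ℝ) * ((M / 2 ^ i : ℕ) : ℝ) * ((PB i).card : ℝ) * (σ + (1 / σ) * (1 / ((PB i).card : ℝ) + 2 * τ +
        (72 * ((2 ^ (i + 1) : ℕ) : ℝ) / ((PB i).card : ℝ) ^ 2 + η) / τ ^ 3)) ≤
        (N : ℝ) * ((M / 2 ^ i : ℕ) : ℝ) * ((PB i).card : ℝ) * (2 * σ) := by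
      apply mul_le_mul_of_nonneg_left _ (by positivity)
      linarith
    refine e6.trans ?_
    calc (N : ℝ) * ((M / 2 ^ i : ℕ) : ℝ) * ((PB i).card : ℝ) * (2 * σ) =
          (2 * σ * N) * (((M / 2 ^ i : ℕ) : ℝ) * ((PB i).card : ℝ)) := by ring
      _ ≤ (2 * σ * N) * (2 * M * SS (PB i)) := mul_le_mul_of_nonneg_left e5 (by positivity)
      _ = _ := by ring
  have h3 : A * ∑ n ∈ Icc 1 N, ‖∑ m ∈ Icc 1 M, b m * F n m * ((lam (n + m) : ℝ) : ℂ)‖ ≤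
      N * (M * √(2 * A) + 2 * M) + 4 * σ * N * M * A := by
    rw [mul_sum]
    refine (sum_le_sum h1).trans ?_
    rw [sum_add_distrib, sum_const, Nat.card_Icc, Nat.add_sub_cancel, nsmul_eq_mul, sum_comm]
    have e1 : ∑ i ∈ I, ∑ n ∈ Icc 1 N, X n i ≤ 4 * σ * N * M * A := by
      refine (sum_le_sum h2).trans (le_of_eq ?_)
      rw [← mul_sum, hA, hQ]
      congr 1
      unfold SS
      rw [sum_biUnion (fun i _ j _ hij => PB_disj hij)]
    linarith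
  have h4 : √(2 * A) ≤ ε / 4 * A := by
    apply Real.sqrt_le_iff.2
    refine ⟨by positivity, ?_⟩
    have : 32 ≤ A * ε ^ 2 := by
      rw [div_le_iff₀ (by positivity)] at hA1
      exact hA1
    nlinarith
  have h5 : 2 ≤ ε / 4 * A := by
    have : 8 ≤ A * ε := by
      rw [div_le_iff₀ hε] at hA2
      exact hA2
    linarith
  have h6 : A * ∑ n ∈ Icc 1 N, ‖∑ m ∈ Icc 1 M, b m * F n m * ((lam (n + m) : ℝ) : ℂ)‖ ≤ A * (ε * M * N) := by
    refine h3.trans ?_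
    have e1 : (N : ℝ) * (M * √(2 * A) + 2 * M) ≤ N * M * (ε / 4 * A + ε / 4 * A) := by
      have : (N : ℝ) * (M * √(2 * A) + 2 * M) = N * M * (√(2 * A) + 2) := by ring
      rw [this]
      apply mul_le_mul_of_nonneg_left _ (by positivity)
      linarith
    have e2 : 4 * σ * N * M * A ≤ ε / 4 * (N * M * A) := by
      have : 4 * σ * N * M * A = 4 * σ * (N * M * A) := by ring
      rw [this]
      apply mul_le_mul_of_nonneg_right _ (by positivity)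
      linarith
    have e3 : 0 < N * M * A := by positivity
    have e4 : 0 ≤ ε / 4 * (N * M * A) := by positivity
    have e5 : A * (ε * M * N) = 4 * (ε / 4 * (N * M * A)) := by ring
    rw [e5]
    have e6 : (N : ℝ) * M * (ε / 4 * A + ε / 4 * A) = 2 * (ε / 4 * (N * M * A)) := by ring
    rw [e6] at e1
    linarith
  exact le_of_mul_le_mul_left h6 hA0

end Pool.Agent.K1H48.MT
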